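import Pool.Agent.Helper61.TQ.Core

set_option autoImplicit false

/-! # (SATHARD) every NP predicate reduces to SAT -/

namespace Pool.Agent.Helper61.TQ

open Pool.Agent.Helper58 Pool.Agent.Helper53.CL Pool.Agent.Helper52.Grid

/-! ### unique readability -/

/-- the number with the given digits -/
def SATHARD_num (d : W) : ℕ := d.foldr (fun b n => Nat.bit b n) 0

theorem SATHARD_num_bits (i : ℕ) : SATHARD_num i.bits = i := by
  unfold SATHARD_num
  induction i using Nat.binaryRec' with
  | zero => simp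
  | bit b n h ih => rw [Nat.bits_append_bit n b h, List.foldr_cons, ih]

/-- reading a word -/
def SATHARD_run : W → W × List Fm → W × List Fm
  | false :: false :: b :: w, st => SATHARD_run w (st.1 ++ [b], st.2)
  | false :: true :: false :: w, st => SATHARD_run w ([], Fm.var (SATHARD_num st.1) :: st.2)
  | false :: true :: true :: w, (d, φ :: s) => SATHARD_run w (d, Fm.neg φ :: s)
  | true :: false :: false :: w, (d, ψ :: φ :: s) => SATHARD_run w (d, Fm.and φ ψ :: s)
  | true :: false :: true :: w, (d, ψ :: φ :: s) => SATHARD_run w (d, Fm.or φ ψ :: s)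
  | _, st => st

theorem SATHARD_run_bits (e w d : W) (s : List Fm) :
    SATHARD_run (e.flatMap (fun b => [false, false, b]) ++ w) (d, s) =
      SATHARD_run w (d ++ e, s) := by
  induction e generalizing d with
  | nil => simp
  | cons b e ih =>
    rw [List.flatMap_cons]
    show SATHARD_run (false :: false :: b :: (e.flatMap (fun b => [false, false, b]) ++ w)) (d, s) =
      _
    rw [SATHARD_run, ih]
    simp

theorem SATHARD_run_code (φ : Fm) (w : W) (s : List Fm) :
    SATHARD_run (φ.code ++ w) ([], s) = SATHARD_run w ([], φ :: s) := by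
  induction φ generalizing w s with
  | var i =>
    rw [Fm.code, List.append_assoc, SATHARD_run_bits, List.nil_append]
    show SATHARD_run (false :: true :: false :: w) (i.bits, s) = _
    rw [SATHARD_run, SATHARD_num_bits]
  | neg φ ih =>
    rw [Fm.code, List.append_assoc, ih]
    show SATHARD_run (false :: true :: true :: w) ([], φ :: s) = _
    rw [SATHARD_run]
  | and φ ψ ih1 ih2 =>
    rw [Fm.code, List.append_assoc, List.append_assoc, ih1, ih2]
    show SATHARD_run (true :: false :: false :: w) ([], ψ :: φ :: s) = _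
    rw [SATHARD_run]
  | or φ ψ ih1 ih2 =>
    rw [Fm.code, List.append_assoc, List.append_assoc, ih1, ih2]
    show SATHARD_run (true :: false :: true :: w) ([], ψ :: φ :: s) = _
    rw [SATHARD_run]

theorem SATHARD_inj {φ ψ : Fm} (h : φ.code = ψ.code) : φ = ψ := by
  have h1 := SATHARD_run_code φ [] []
  have h2 := SATHARD_run_code ψ [] []
  rw [h, h2] at h1
  have h3 : ∀ χ : Fm, SATHARD_run [] ([], [χ]) = ([], [χ]) := fun χ => by
    rw [SATHARD_run] <;> simp
  rw [h3, h3] at h1
  simpa using h1.symm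

theorem SATHARD_mem (φ : Fm) : φ.code ∈ SAT ↔ ∃ v : ℕ → Bool, φ.eval v = true := by
  constructor
  · rintro ⟨ψ, h, v, hv⟩
    rw [SATHARD_inj h] at hv
    exact ⟨v, hv⟩
  · intro h
    exact ⟨φ, rfl, h⟩

/-! ### clause lists as formulas -/

/-- literals -/
def SATHARD_lf (l : Lit) : Fm := bif l.2 then Fm.var (an l.1) else Fm.neg (Fm.var (an l.1))
/-- clauses -/
def SATHARD_cf (c : Cl) : Fm := Fm.or (Fm.or (SATHARD_lf c.1) (SATHARD_lf c.2.1)) (SATHARD_lf c.2.2)
/-- lists of clauses -/
def SATHARD_ff : List Cl → Fm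
  | [] => Fm.or (Fm.var 1) (Fm.neg (Fm.var 1))
  | c :: l => Fm.and (SATHARD_cf c) (SATHARD_ff l)

theorem SATHARD_lf_eval (v : ℕ → Bool) (l : Lit) :
    (SATHARD_lf l).eval v = true ↔ v (an l.1) = l.2 := by
  unfold SATHARD_lf
  cases l.2 <;> simp [Fm.eval]

theorem SATHARD_cf_eval (v : ℕ → Bool) (c : Cl) :
    (SATHARD_cf c).eval v = true ↔ Sat (fun p => v (an p)) c := by
  unfold SATHARD_cf Sat
  rw [Fm.eval, Fm.eval, Bool.or_eq_true, Bool.or_eq_true, SATHARD_lf_eval, SATHARD_lf_eval,
    SATHARD_lf_eval, or_assoc]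

theorem SATHARD_ff_eval (v : ℕ → Bool) (l : List Cl) :
    (SATHARD_ff l).eval v = true ↔ ∀ c ∈ l, Sat (fun p => v (an p)) c := by
  induction l with
  | nil => simp [SATHARD_ff, Fm.eval]
  | cons c l ih =>
    rw [SATHARD_ff, Fm.eval, Bool.and_eq_true, SATHARD_cf_eval, ih, List.forall_mem_cons]

theorem SATHARD_ff_sat (l : List Cl) :
    (∃ v : ℕ → Bool, (SATHARD_ff l).eval v = true) ↔ ∃ Y, ∀ c ∈ l, Sat Y c := by
  classical
  constructor
  · rintro ⟨v, hv⟩
    exact ⟨_, (SATHARD_ff_eval v l).1 hv⟩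
  · rintro ⟨Y, hY⟩
    refine ⟨fun i => decide (∃ p, an p = i ∧ Y p = true), (SATHARD_ff_eval _ l).2 ?_⟩
    have h1 : (fun p => decide (∃ q, an q = an p ∧ Y q = true)) = Y := by
      funext p
      cases h : Y p
      · rw [decide_eq_false_iff_not]
        rintro ⟨q, h1, h2⟩
        rw [an_inj h1, h] at h2
        exact absurd h2 (by simp)
      · rw [decide_eq_true_iff]
        exact ⟨p, rfl, h⟩
    rw [h1]
    exact hY

/-! ### the codes -/

/-- code of a variable -/
def SATHARD_vc (i : ℕ) : W := i.bits.flatMap (fun b => [false, false, b]) ++ [false, true, false]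
/-- code of a literal -/
def SATHARD_lc (l : Lit) : W :=
  bif l.2 then SATHARD_vc (an l.1) else SATHARD_vc (an l.1) ++ [false, true, true]
/-- code of a clause -/
def SATHARD_cc (c : Cl) : W :=
  ((SATHARD_lc c.1 ++ SATHARD_lc c.2.1) ++ [true, false, true]) ++ SATHARD_lc c.2.2 ++
    [true, false, true]
/-- code of a list of clauses -/
def SATHARD_fc (l : List Cl) : W :=
  l.flatMap SATHARD_cc ++ (Fm.or (Fm.var 1) (Fm.neg (Fm.var 1))).code ++
    (List.replicate l.length ()).flatMap (fun _ => [true, false, false])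

theorem SATHARD_lc_eq (l : Lit) : (SATHARD_lf l).code = SATHARD_lc l := by
  unfold SATHARD_lf SATHARD_lc SATHARD_vc
  cases l.2 <;> rfl

theorem SATHARD_cc_eq (c : Cl) : (SATHARD_cf c).code = SATHARD_cc c := by
  unfold SATHARD_cf SATHARD_cc
  rw [Fm.code, Fm.code, SATHARD_lc_eq, SATHARD_lc_eq, SATHARD_lc_eq]

theorem SATHARD_fc_eq (l : List Cl) : (SATHARD_ff l).code = SATHARD_fc l := by
  induction l with
  | nil => simp [SATHARD_ff, SATHARD_fc]
  | cons c l ih =>
    rw [SATHARD_ff, Fm.code, ih, SATHARD_cc_eq]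
    unfold SATHARD_fc
    rw [List.flatMap_cons, List.length_cons, List.replicate_succ', List.flatMap_append]
    simp

theorem SATHARD_pvc {γ : Type} [Enc γ] {i : γ → ℕ} (hi : PTf i) :
    PTf (fun x => SATHARD_vc (i x)) := by
  unfold SATHARD_vc
  fun_prop

theorem SATHARD_plc {γ : Type} [Enc γ] {l : γ → Lit} (hl : PTf l) :
    PTf (fun x => SATHARD_lc (l x)) := by
  have h1 : PTf (fun x => SATHARD_vc (an (l x).1)) := SATHARD_pvc (by fun_prop)
  unfold SATHARD_lc
  fun_prop

theorem SATHARD_pcc : PTf SATHARD_cc := by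
  have h1 : PTf (fun c : Cl => SATHARD_lc c.1) := SATHARD_plc (by fun_prop)
  have h2 : PTf (fun c : Cl => SATHARD_lc c.2.1) := SATHARD_plc (by fun_prop)
  have h3 : PTf (fun c : Cl => SATHARD_lc c.2.2) := SATHARD_plc (by fun_prop)
  unfold SATHARD_cc
  fun_prop

theorem SATHARD_pfc {γ : Type} [Enc γ] {l : γ → List Cl} (hl : PTf l) :
    PTf (fun x => SATHARD_fc (l x)) := by
  have h1 : PTf (fun x => (l x).flatMap SATHARD_cc) :=
    PTf.flatMap hl (PTf.comp SATHARD_pcc (PTf.snd PTf.id))
  unfold SATHARD_fc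
  fun_prop

/-- (SATHARD) -/
theorem st_SATHARD : ST_SATHARD := by
  rintro α _ L ⟨V, B, hV, hB, hs, hc⟩
  have h1 : PTf (fun q : α × W => V q.1 (dc q.2)) := by
    have h2 : PTf (fun q : α × W => dc q.2) := ptf_dc (PTf.snd PTf.id)
    exact PTf.comp hV (PTf.pair (PTf.fst PTf.id) h2)
  have h3 : PTf (fun a : α => 2 * B a) := by fun_prop
  obtain ⟨f, hf, hh⟩ := cook h1 h3
  refine ⟨fun a => SATHARD_fc (f a), SATHARD_pfc hf, fun a => ?_⟩
  show L a ↔ SATHARD_fc (f a) ∈ SAT
  rw [← SATHARD_fc_eq, SATHARD_mem, SATHARD_ff_sat, hh]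
  constructor
  · intro h
    obtain ⟨w, hw, hv⟩ := hc a h
    exact ⟨ec (B a) w, ec_length hw, by simpa [dc_ec] using hv⟩
  · rintro ⟨z, -, hv⟩
    exact hs a (dc z) hv

end Pool.Agent.Helper61.TQ
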